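import Mathlib
import Pool.Agent.Run7.h178.Label

/-! Embeddings of intrinsically knotted graphs in which exactly one pair of disjoint cycles has a
nonzero linking number. -/

open Pool.Agent.Helper683.Lk (SpatialEmbedding IsLinkingNumber)
open Pool.Agent.Run7.h178

/-- Let `G` be a finite three-connected intrinsically knotted graph with a spatial embedding `E` in
which the disjoint cycles `A` and `B` are the only pair of disjoint cycles with a nonzero linking
number. Then `A` and `B` cover the vertices of `G`, both are induced cycles, and both have length at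
least five. -/
theorem Pool.Agent.Results.MP_5f89c9_gt.UniqueLink.result {V : Type*} [Finite V]
    {G : SimpleGraph V} (h3 : ThreeConnected G) (hIK : IntrinsicallyKnotted G)
    (E : SpatialEmbedding G) {a b : V} (A : G.Walk a a) (B : G.Walk b b) (hA : A.IsCycle)
    (hB : B.IsCycle) (hd : List.Disjoint A.support B.support) (k : ℤ)
    (hk : IsLinkingNumber (E.curve A) (E.curve B) k) (hk0 : k ≠ 0) (ho : OnlyPair E A B) :
    (∀ x, x ∈ A.support ∨ x ∈ B.support) ∧
    (∀ u ∈ A.support, ∀ v ∈ A.support, G.Adj u v → s(u, v) ∈ A.edges) ∧
    (∀ u ∈ B.support, ∀ v ∈ B.support, G.Adj u v → s(u, v) ∈ B.edges) ∧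
    5 ≤ A.length ∧ 5 ≤ B.length :=
  structure_thm h3 hIK hA hB hd hk hk0 ho
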